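import Pool.Agent.Helper8.Par

/-!
# Many odd zeta values in short intervals outside a finite-dimensional space

Let `V` be a `ℚ`-linear subspace of `ℝ` of dimension at most `κ`. For all `m, l ≥ 1` there are at
least `m` odd integers `i` with `l < i ≤ 2^(32 κ) m^2 log(m+1) l` and `ζ(i) ∉ V`.
-/

namespace Pool.Agent.Helper8.ManyInIntervals

open Finset Pool.Agent.Helper8

theorem many_in_intervals (κ m l : ℕ) (hκ : 1 ≤ κ) (hm : 1 ≤ m) (hl : 1 ≤ l) (V : Submodule ℚ ℝ)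
    (hfin : Module.Finite ℚ V) (hdim : Module.finrank ℚ V ≤ κ) :
    ∃ S : Finset ℕ, m ≤ S.card ∧ ∀ i ∈ S, Odd i ∧ l < i ∧
      (i : ℝ) ≤ 2 ^ (32 * κ) * (m : ℝ) ^ 2 * Real.log ((m : ℝ) + 1) * l ∧
      ∀ x ∈ V, riemannZeta (i : ℂ) ≠ ((x : ℝ) : ℂ) := by
  classical
  set V' : Submodule ℚ ℝ := V ⊔ Submodule.span ℚ {(1 : ℝ)} with hV'
  have hV'fin : FiniteDimensional ℚ V' := Submodule.finite_sup _ _
  have hV'dim : Module.finrank ℚ V' ≤ κ + 1 := by
    have h1 := Submodule.finrank_add_le_finrank_add_finrank V (Submodule.span ℚ {(1 : ℝ)})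
    have h2 : Module.finrank ℚ (Submodule.span ℚ {(1 : ℝ)}) = 1 :=
      finrank_span_singleton one_ne_zero
    rw [h2] at h1
    exact h1.trans (by omega)
  have h1V : (1 : ℝ) ∈ V' :=
    (le_sup_right : Submodule.span ℚ {(1 : ℝ)} ≤ V') (Submodule.mem_span_singleton_self _)
  -- parameters
  obtain ⟨r, hr⟩ : ∃ r, r = 2 ^ (10 * (κ + 1)) := ⟨_, rfl⟩
  obtain ⟨F, hF⟩ : ∃ F, F = Icc 1 m := ⟨_, rfl⟩
  obtain ⟨t, ht⟩ : ∃ t, t = (TT F).card := ⟨_, rfl⟩
  obtain ⟨E, hE⟩ : ∃ E, E = 2 * r + t * (2 * r + 1) := ⟨_, rfl⟩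
  obtain ⟨lam, hlam⟩ : ∃ lam, lam = Nat.log 2 m + 1 := ⟨_, rfl⟩
  obtain ⟨A0, hA0⟩ : ∃ A0, A0 = 2 * (9 + (16 + 10 * (κ + 1)) * E +
    4 * (t * (2 * r + 1)) * lam) + 1 := ⟨_, rfl⟩
  obtain ⟨b, hb⟩ : ∃ b, b = 2 * (l / 2) + 3 := ⟨_, rfl⟩
  have hr1 : 1 ≤ r := by rw [hr]; exact Nat.one_le_two_pow
  have hb2 : 2 ≤ b := by omega
  have hbo : Odd b := ⟨l / 2 + 1, by rw [hb]; ring⟩
  have hA0o : Odd A0 := ⟨_, hA0⟩
  have hEE : EE r t = E := by rw [EE, hE]
  have hA0big : 8 + (16 + 10 * (κ + 1)) * E + 4 * (t * (2 * r + 1)) * lam < A0 := by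
    rw [hA0]; omega
  have hEA : E < A0 := by
    have h5 : E ≤ (16 + 10 * (κ + 1)) * E := Nat.le_mul_of_pos_left _ (by omega)
    exact lt_of_le_of_lt (by omega) hA0big
  have hmlam : m ≤ 2 ^ lam := by
    rw [hlam]; exact (Nat.lt_pow_succ_log_self (by norm_num) m).le
  have hgap := gap_aux (κ := κ + 1) (b := b) (by omega) hmlam hm (by omega) hr hEE hA0big
  have hFm : ∀ d ∈ F, 0 < d ∧ d ≤ m := by
    intro d hd
    rw [hF, mem_Icc] at hd
    exact ⟨by omega, hd.2⟩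
  have htm : t ≤ m ^ 2 := by rw [ht, hF]; exact card_TT_Icc_le m
  set I : Finset ℕ := ((Ev (b * A0)).image (fun e => e + b)).filter (fun i => zt i ∉ V') with hI
  refine ⟨I, ?_, ?_⟩
  · by_contra hlt
    rw [not_le] at hlt
    have hIF : I.card < F.card := by rw [hF, Nat.card_Icc]; omega
    refine core (m := m) (r := r) (A := b * (A0 - E)) (b := b) (κ := κ + 1) (a := b * A0) (F := F)
      hm hr1 (Nat.mul_pos (by omega) (by omega)) hb2 hbo hFm ?_ (hbo.mul hA0o) ?_ V' hV'dim h1V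
      hIF ?_
    · rw [← ht, hEE, ← mul_add, Nat.sub_add_cancel hEA.le]
    · rw [← ht]; exact hgap
    · intro e he heI
      by_contra hz
      apply heI
      rw [hI, mem_filter, mem_image]
      exact ⟨⟨e, he, rfl⟩, hz⟩
  · intro i hi
    rw [hI, mem_filter, mem_image] at hi
    obtain ⟨⟨e, he, rfl⟩, hz⟩ := hi
    rw [mem_Ev] at he
    refine ⟨he.2.2.add_odd hbo, by omega, ?_, ?_⟩
    · refine size_final hκ hm hl hr htm hE hlam hA0 (b := b) (by omega) ?_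
      rw [mul_add, mul_one]; omega
    · intro x hx h
      apply hz
      rw [← zt_eq_zeta (by omega)] at h
      have h2 : zt (e + b) = x := by exact_mod_cast h
      rw [h2]
      exact (le_sup_left : V ≤ V') hx

end Pool.Agent.Helper8.ManyInIntervals
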